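import Pool.Agent.U375.LC.Det

/-! Project LC: the analytic Fredholm theorem. -/

set_option autoImplicit false

open MeasureTheory Filter Topology Complex

namespace Pool.Agent.U375.LC

open Pool.Agent.U37.LC

theorem jobConnected : JobConnected := by
  intro V _ _ _ Ω T hΩ hpre hT ha hex
  -- dichotomy
  have hdich : ∀ k ∈ Ω, (∀ᶠ k' in 𝓝 k, ¬ IsUnit (1 - T k')) ∨
      (∀ᶠ k' in 𝓝[≠] k, IsUnit (1 - T k')) := by
    intro k hk
    obtain ⟨d, hd, hdu⟩ := local_det T k (hT k hk) (ha k hk)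
    rcases hd.eventually_eq_zero_or_eventually_ne_zero with h | h
    · left
      filter_upwards [h, hdu] with k' h1 h2
      rw [h2, h1]
      simp
    · right
      filter_upwards [h, hdu.filter_mono nhdsWithin_le_nhds] with k' h1 h2
      exact h2.2 h1
  set A : Set ℂ := {k | k ∈ Ω ∧ ∀ᶠ k' in 𝓝[≠] k, IsUnit (1 - T k')} with hA
  set B : Set ℂ := {k | k ∈ Ω ∧ ∀ᶠ k' in 𝓝 k, ¬ IsUnit (1 - T k')} with hB
  have hunit : ∀ k ∈ Ω, IsUnit (1 - T k) → ∀ᶠ k' in 𝓝 k, IsUnit (1 - T k') := by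
    intro k hk h
    have h1 : {x : V →L[ℂ] V | IsUnit x} ∈ 𝓝 (1 - T k) := Units.isOpen.mem_nhds h
    exact (continuousAt_const.sub (hT k hk).continuousAt) h1
  have hAo : IsOpen A := by
    rw [isOpen_iff_mem_nhds]
    rintro k ⟨hk, h⟩
    have h2 : ∀ᶠ k' in 𝓝[≠] k, k' ∈ A := by
      filter_upwards [h, (hΩ.mem_nhds hk : Ω ∈ 𝓝 k) |> mem_nhdsWithin_of_mem_nhds] with k' h3 h4
      exact ⟨h4, (hunit k' h4 h3).filter_mono nhdsWithin_le_nhds⟩
    rw [eventually_nhdsWithin_iff] at h2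
    filter_upwards [h2] with k' h3
    by_cases hkk : k' = k
    · rw [hkk]; exact ⟨hk, h⟩
    · exact h3 hkk
  have hBo : IsOpen B := by
    rw [isOpen_iff_mem_nhds]
    rintro k ⟨hk, h⟩
    filter_upwards [hΩ.mem_nhds hk, eventually_eventually_nhds.2 h] with k' h1 h2
    exact ⟨h1, h2⟩
  have hcov : Ω ⊆ A ∪ B := by
    intro k hk
    rcases hdich k hk with h | h
    · exact Or.inr ⟨hk, h⟩
    · exact Or.inl ⟨hk, h⟩
  obtain ⟨k₁, hk₁, hu₁⟩ := hex
  have hA1 : (Ω ∩ A).Nonempty :=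
    ⟨k₁, hk₁, hk₁, (hunit k₁ hk₁ hu₁).filter_mono nhdsWithin_le_nhds⟩
  intro k hk
  rcases hcov hk with h | h
  · exact h.2
  · exfalso
    obtain ⟨z, -, hz1, hz2⟩ := hpre A B hAo hBo hcov hA1 ⟨k, hk, h⟩
    have h3 := hz1.2.and (hz2.2.filter_mono nhdsWithin_le_nhds)
    obtain ⟨w, hw1, hw2⟩ := h3.exists
    exact hw2 hw1

end Pool.Agent.U375.LC
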