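import Pool.Agent.U375.LC.Det

/-! Project LC: projections of null sets of parameters. -/

set_option autoImplicit false

open MeasureTheory Filter Topology Complex

namespace Pool.Agent.U375.LC

open Pool.Agent.U37.LC

/-- iterated derivatives in the second variable -/
noncomputable def itd (d : ℂ × ℂ → ℂ) : ℕ → ℂ × ℂ → ℂ
  | 0 => d
  | m + 1 => fun p => fderiv ℂ (itd d m) p (0, 1)

lemma itd_an {d : ℂ × ℂ → ℂ} {p : ℂ × ℂ} (h : AnalyticAt ℂ d p) (m : ℕ) :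
    AnalyticAt ℂ (itd d m) p := by
  induction m with
  | zero => exact h
  | succ m ih =>
    have h1 := ih.fderiv
    exact ((ContinuousLinearMap.apply ℂ ℂ ((0, 1) : ℂ × ℂ)).analyticAt _).comp h1

/-- if all derivatives in the second variable vanish at a point then `d l` vanishes near `k` -/
lemma itd_zero {d : ℂ × ℂ → ℂ} {l k : ℂ} (h : AnalyticAt ℂ d (l, k))
    (hz : ∀ m, itd d m (l, k) = 0) : ∀ᶠ z in 𝓝 k, d (l, z) = 0 := by
  have hc : AnalyticAt ℂ (fun z : ℂ => ((l, z) : ℂ × ℂ)) k := analyticAt_const.prod analyticAt_id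
  have hg : AnalyticAt ℂ (fun z => d (l, z)) k := AnalyticAt.comp (g := d) h hc
  have hev : ∀ᶠ z in 𝓝 k, AnalyticAt ℂ d (l, z) := by
    have h1 := h.eventually_analyticAt
    exact (hc.continuousAt.tendsto).eventually h1
  have hit : ∀ m, iteratedDeriv m (fun z => d (l, z)) =ᶠ[𝓝 k] fun z => itd d m (l, z) := by
    intro m
    induction m with
    | zero => simp [itd, iteratedDeriv_zero]
    | succ m ih =>
      rw [iteratedDeriv_succ]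
      have h2 := ih.eventuallyEq_nhds
      filter_upwards [h2, hev] with z h3 h4
      rw [h3.deriv_eq]
      have h5 : HasFDerivAt (itd d m) (fderiv ℂ (itd d m) (l, z)) (l, z) :=
        (itd_an h4 m).differentiableAt.hasFDerivAt
      have h6 : HasDerivAt (fun z : ℂ => ((l, z) : ℂ × ℂ)) (0, 1) z :=
        (hasDerivAt_const z l).prodMk (hasDerivAt_id z)
      exact (h5.comp_hasDerivAt z h6).deriv
  have hps := hg.hasFPowerSeriesAt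
  refine hps.locally_zero_iff.2 ?_
  have : ∀ n : ℕ, iteratedDeriv n (fun z => d (l, z)) k = 0 := fun n => by
    rw [(hit n).self_of_nhds]
    exact hz n
  ext n
  simp [FormalMultilinearSeries.ofScalars, this]

/-- the inclusion of the real points -/
def ι (p : ℝ × ℝ) : ℂ × ℂ := ((p.1 : ℂ), (p.2 : ℂ))

lemma ι_cont : Continuous ι := by
  unfold ι
  fun_prop

/-- the zeros of `f` at which the derivative in the second variable does not vanish are locally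
Lipschitz graphs -/
lemma graph {f : ℂ × ℂ → ℂ} {z : ℝ × ℝ} (hf : AnalyticAt ℂ f (ι z))
    (h1 : fderiv ℂ f (ι z) (0, 1) ≠ 0) : ∃ U ∈ 𝓝 z, ∃ C : ℝ, 0 ≤ C ∧ ∀ p ∈ U, ∀ q ∈ U,
      f (ι p) = 0 → f (ι q) = 0 → |p.2 - q.2| ≤ C * |p.1 - q.1| := by
  set L := fderiv ℂ f (ι z) with hL
  set c : ℂ := L (0, 1) with hc
  set a : ℂ := L (1, 0) with ha
  have hcpos : 0 < ‖c‖ := norm_pos_iff.2 h1
  have hs : HasStrictFDerivAt f L (ι z) := hf.hasStrictFDerivAt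
  have h2 := hs.isLittleO.def (half_pos hcpos)
  rw [nhds_prod_eq] at h2
  obtain ⟨W, hW, h3⟩ := (Filter.eventually_prod_self_iff' (r := fun x : (ℂ × ℂ) × (ℂ × ℂ) =>
    ‖f x.1 - f x.2 - L (x.1 - x.2)‖ ≤ ‖c‖ / 2 * ‖x.1 - x.2‖)).1 h2
  refine ⟨ι ⁻¹' W, ι_cont.continuousAt hW, (‖a‖ + ‖c‖ / 2) / (‖c‖ / 2), by positivity, ?_⟩
  intro p hp q hq hp0 hq0
  have h4 := h3 _ hp _ hq
  simp only at h4
  rw [hp0, hq0, sub_self, zero_sub, norm_neg] at h4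
  have h5 : ι p - ι q = ((p.1 - q.1 : ℝ) : ℂ) • ((1, 0) : ℂ × ℂ) + ((p.2 - q.2 : ℝ) : ℂ) • ((0, 1) : ℂ × ℂ) := by
    ext <;> simp [ι]
  have h6 : L (ι p - ι q) = ((p.1 - q.1 : ℝ) : ℂ) * a + ((p.2 - q.2 : ℝ) : ℂ) * c := by
    rw [h5, map_add, map_smul, map_smul]
    simp [ha, hc]
  have h7 : ‖ι p - ι q‖ ≤ |p.1 - q.1| + |p.2 - q.2| := by
    have : ι p - ι q = (((p.1 - q.1 : ℝ) : ℂ), ((p.2 - q.2 : ℝ) : ℂ)) := by
      ext <;> simp [ι]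
    rw [this, Prod.norm_mk]
    simp only [Complex.norm_real, Real.norm_eq_abs]
    exact max_le (by linarith [abs_nonneg (p.2 - q.2)]) (by linarith [abs_nonneg (p.1 - q.1)])
  have h8 : ‖c‖ * |p.2 - q.2| ≤ ‖a‖ * |p.1 - q.1| + ‖L (ι p - ι q)‖ := by
    have : ((p.2 - q.2 : ℝ) : ℂ) * c = L (ι p - ι q) - ((p.1 - q.1 : ℝ) : ℂ) * a := by
      rw [h6]; ring
    calc ‖c‖ * |p.2 - q.2| = ‖((p.2 - q.2 : ℝ) : ℂ) * c‖ := by
          rw [norm_mul, Complex.norm_real, Real.norm_eq_abs, mul_comm]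
      _ = ‖L (ι p - ι q) - ((p.1 - q.1 : ℝ) : ℂ) * a‖ := by rw [this]
      _ ≤ ‖L (ι p - ι q)‖ + ‖((p.1 - q.1 : ℝ) : ℂ) * a‖ := norm_sub_le _ _
      _ = _ := by rw [norm_mul, Complex.norm_real, Real.norm_eq_abs]; ring
  have h9 : ‖c‖ / 2 * |p.2 - q.2| ≤ (‖a‖ + ‖c‖ / 2) * |p.1 - q.1| := by
    have : ‖L (ι p - ι q)‖ ≤ ‖c‖ / 2 * (|p.1 - q.1| + |p.2 - q.2|) :=
      h4.trans (mul_le_mul_of_nonneg_left h7 (by positivity))
    nlinarith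
  rw [div_mul_eq_mul_div, le_div_iff₀ (by positivity)]
  linarith

lemma null_graph {Z : Set (ℝ × ℝ)} {C : ℝ} (hC : 0 ≤ C)
    (h : ∀ p ∈ Z, ∀ q ∈ Z, |p.2 - q.2| ≤ C * |p.1 - q.1|) {E : Set ℝ} (hE : volume E = 0) :
    volume {k : ℝ | ∃ l ∈ E, (l, k) ∈ Z} = 0 := by
  classical
  set φ : ℝ → ℝ := fun l => if h : ∃ k, (l, k) ∈ Z then h.choose else 0 with hφ
  have hφs : ∀ l k, (l, k) ∈ Z → (l, φ l) ∈ Z := by
    intro l k hk
    have h1 : ∃ k, (l, k) ∈ Z := ⟨k, hk⟩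
    simp only [hφ, dif_pos h1]
    exact h1.choose_spec
  set D : Set ℝ := {l | l ∈ E ∧ ∃ k, (l, k) ∈ Z} with hD
  have hsub : {k : ℝ | ∃ l ∈ E, (l, k) ∈ Z} ⊆ φ '' D := by
    rintro k ⟨l, hl, hk⟩
    refine ⟨l, ⟨hl, k, hk⟩, ?_⟩
    have := h _ (hφs l k hk) _ hk
    simp only [sub_self, abs_zero, mul_zero] at this
    exact sub_eq_zero.1 (abs_eq_zero.1 (le_antisymm this (abs_nonneg _)))
  have hlip : LipschitzOnWith ⟨C, hC⟩ φ D := by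
    refine LipschitzOnWith.of_dist_le_mul ?_
    rintro l ⟨-, k, hk⟩ l' ⟨-, k', hk'⟩
    rw [Real.dist_eq, Real.dist_eq]
    exact h _ (hφs l k hk) _ (hφs l' k' hk')
  refine measure_mono_null hsub ?_
  have h2 := hlip.hausdorffMeasure_image_le (d := 1) zero_le_one
  rw [hausdorffMeasure_real] at h2
  have h3 : volume D = 0 := measure_mono_null (fun l hl => hl.1) hE
  rw [h3, mul_zero] at h2
  exact le_antisymm h2 zero_le

theorem jobNullProj : JobNullProj := by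
  intro V _ _ _ T l₀ k₀ hT ha hev
  obtain ⟨d, hd, hdu⟩ := local_det T ((l₀ : ℂ), (k₀ : ℂ)) hT ha
  have h1 : ∀ᶠ p in 𝓝 (ι (l₀, k₀)), AnalyticAt ℂ d p ∧ (IsUnit (1 - T p) ↔ d p ≠ 0) :=
    hd.eventually_analyticAt.and hdu
  have h1' := eventually_eventually_nhds.2 h1
  have h2 : ∀ᶠ p in 𝓝 ((l₀, k₀) : ℝ × ℝ),
      (∀ᶠ w in 𝓝 (ι p), AnalyticAt ℂ d w ∧ (IsUnit (1 - T w) ↔ d w ≠ 0)) ∧
      ∀ᶠ k' : ℂ in 𝓝[≠] (p.2 : ℂ), IsUnit (1 - T ((p.1 : ℂ), k')) :=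
    ((ι_cont.tendsto _).eventually h1').and hev
  refine ⟨_, h2, fun E hE => ?_⟩
  set O : Set (ℝ × ℝ) := {p | (∀ᶠ w in 𝓝 (ι p), AnalyticAt ℂ d w ∧ (IsUnit (1 - T w) ↔ d w ≠ 0)) ∧
      ∀ᶠ k' : ℂ in 𝓝[≠] (p.2 : ℂ), IsUnit (1 - T ((p.1 : ℂ), k'))} with hO
  set Z : ℕ → Set (ℝ × ℝ) := fun m =>
    {p | p ∈ O ∧ itd d m (ι p) = 0 ∧ itd d (m + 1) (ι p) ≠ 0} with hZ
  have hcov : {k : ℝ | ∃ l ∈ E, (l, k) ∈ O ∧ ¬ IsUnit (1 - T ((l : ℂ), (k : ℂ)))} ⊆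
      ⋃ m, {k : ℝ | ∃ l ∈ E, (l, k) ∈ Z m} := by
    rintro k ⟨l, hl, hk, hu⟩
    by_contra hcon
    simp only [Set.mem_iUnion, Set.mem_ofPred_eq, not_exists, not_and] at hcon
    have h3 := hk.1.self_of_nhds
    have h4 : d (ι (l, k)) = 0 := by
      by_contra h5
      exact hu (h3.2.2 h5)
    have h5 : ∀ m, itd d m (ι (l, k)) = 0 := by
      intro m
      induction m with
      | zero => exact h4
      | succ m ih =>
        by_contra h6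
        exact hcon m l hl ⟨hk, ih, h6⟩
    have h6 := itd_zero (l := (l : ℂ)) (k := (k : ℂ)) h3.1 h5
    have h7 : ∀ᶠ z in 𝓝 (k : ℂ), (IsUnit (1 - T ((l : ℂ), z)) ↔ d ((l : ℂ), z) ≠ 0) := by
      have hc : Tendsto (fun z : ℂ => ((l : ℂ), z)) (𝓝 (k : ℂ)) (𝓝 (ι (l, k))) := by
        have : Continuous (fun z : ℂ => ((l : ℂ), z)) := by fun_prop
        exact this.tendsto _
      exact (hc.eventually hk.1).mono fun z hz => hz.2
    have h8 := hk.2.and ((h6.and h7).filter_mono nhdsWithin_le_nhds)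
    obtain ⟨w, hw1, hw2, hw3⟩ := h8.exists
    exact hw3.1 hw1 hw2
  refine measure_mono_null hcov ((measure_iUnion_null_iff).2 fun m => ?_)
  have hloc : ∀ z ∈ Z m, ∃ U ∈ 𝓝 z, ∃ C : ℝ, 0 ≤ C ∧ ∀ p ∈ U, ∀ q ∈ U,
      itd d m (ι p) = 0 → itd d m (ι q) = 0 → |p.2 - q.2| ≤ C * |p.1 - q.1| := by
    rintro z ⟨hz, -, hz2⟩
    exact graph (itd_an (hz.1.self_of_nhds).1 m) hz2
  choose! U hU C hC hUC using hloc
  obtain ⟨t, htZ, htc, hcover⟩ := TopologicalSpace.countable_cover_nhdsWithin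
    (f := U) (s := Z m) (fun z hz => mem_nhdsWithin_of_mem_nhds (hU z hz))
  have hsub : {k : ℝ | ∃ l ∈ E, (l, k) ∈ Z m} ⊆
      ⋃ z ∈ t, {k : ℝ | ∃ l ∈ E, (l, k) ∈ Z m ∩ U z} := by
    rintro k ⟨l, hl, hk⟩
    obtain ⟨z, hz, hkz⟩ := Set.mem_iUnion₂.1 (hcover hk)
    exact Set.mem_iUnion₂.2 ⟨z, hz, l, hl, hk, hkz⟩
  refine measure_mono_null hsub ((measure_biUnion_null_iff htc).2 fun z hz => ?_)
  refine null_graph (hC z (htZ hz)) ?_ hE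
  rintro p ⟨hp, hpU⟩ q ⟨hq, hqU⟩
  exact hUC z (htZ hz) p hpU q hqU hp.2.1 hq.2.1

end Pool.Agent.U375.LC
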