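import Pool.Agent.U37.LC.Stm

/-! Project LC: the local determinant. -/

set_option autoImplicit false

open MeasureTheory Filter Topology Complex

namespace Pool.Agent.U375.LC

open Pool.Agent.U37.LC

variable {V : Type*} [NormedAddCommGroup V] [NormedSpace ℂ V]

/-- `1 - R v` is invertible iff `1 - v R` is -/
lemma isUnit_swap {V W : Type*} [NormedAddCommGroup V] [NormedSpace ℂ V]
    [NormedAddCommGroup W] [NormedSpace ℂ W] (R : W →L[ℂ] V) (v : V →L[ℂ] W)
    (h : IsUnit (1 - R.comp v)) : IsUnit (1 - v.comp R) := by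
  obtain ⟨S, hS⟩ := h
  have h1 : ∀ x, S.inv (x - R (v x)) = x := fun x => by
    have := congrArg (fun f : V →L[ℂ] V => f x) S.inv_val
    simpa [hS] using this
  have h2 : ∀ x, S.inv x - R (v (S.inv x)) = x := fun x => by
    have := congrArg (fun f : V →L[ℂ] V => f x) S.val_inv
    simpa [hS] using this
  refine isUnit_iff_exists.2 ⟨1 + v.comp (S.inv.comp R), ?_, ?_⟩
  · ext x
    show (x + v (S.inv (R x))) - v (R (x + v (S.inv (R x)))) = x
    have h3 := h2 (R x)
    have h4 : R (v (S.inv (R x))) = S.inv (R x) - R x :=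
      eq_sub_iff_add_eq.2 (by rw [add_comm]; exact (sub_eq_iff_eq_add.1 h3).symm)
    rw [map_add R, h4, add_sub_cancel, add_sub_cancel_right]
  · ext x
    show (x - v (R x)) + v (S.inv (R (x - v (R x)))) = x
    have h3 := h1 (R x)
    rw [map_sub R, h3]
    abel

/-- The local determinant of `1 - T p`. -/
lemma local_det {E : Type*} [NormedAddCommGroup E] [NormedSpace ℂ E] [CompleteSpace V]
    (T : E → V →L[ℂ] V) (p₀ : E) (hT : AnalyticAt ℂ T p₀) (ha : Approx (T p₀)) :
    ∃ d : E → ℂ, AnalyticAt ℂ d p₀ ∧ ∀ᶠ p in 𝓝 p₀, (IsUnit (1 - T p) ↔ d p ≠ 0) := by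
  obtain ⟨r, u, v, huv⟩ := ha 1 one_pos
  set Q : E → V →L[ℂ] V := fun p => 1 - (T p - u.comp v) with hQ
  have hQan : AnalyticAt ℂ Q p₀ := analyticAt_const.sub (hT.sub analyticAt_const)
  have hQu : IsUnit (Q p₀) := (Units.oneSub _ huv).isUnit
  obtain ⟨U, hU⟩ := hQu
  have hI : AnalyticAt ℂ (fun p => Ring.inverse (Q p)) p₀ := by
    have h1 := analyticAt_inverse (𝕜 := ℂ) U
    rw [hU] at h1
    exact h1.comp hQan
  have hev : ∀ᶠ p in 𝓝 p₀, IsUnit (Q p) := by
    have h1 : {x : V →L[ℂ] V | IsUnit x} ∈ 𝓝 (Q p₀) := Units.isOpen.mem_nhds ⟨U, hU⟩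
    exact hQan.continuousAt h1
  set M : E → Matrix (Fin r) (Fin r) ℂ := fun p => LinearMap.toMatrix'
    ((1 - v.comp ((Ring.inverse (Q p)).comp u) : (Fin r → ℂ) →L[ℂ] (Fin r → ℂ)) :
      (Fin r → ℂ) →ₗ[ℂ] (Fin r → ℂ)) with hM
  refine ⟨fun p => (M p).det, ?_, ?_⟩
  · have h1 : ∀ i j, AnalyticAt ℂ (fun p => M p i j) p₀ := by
      intro i j
      set Λ : (V →L[ℂ] V) →L[ℂ] ℂ := ((ContinuousLinearMap.proj i).comp v).comp
        (ContinuousLinearMap.apply ℂ V (u (Pi.single j 1))) with hΛ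
      have h2 : (fun p => M p i j) = fun p =>
          (Pi.single j 1 : Fin r → ℂ) i - Λ (Ring.inverse (Q p)) := by
        funext p
        simp only [hM, LinearMap.toMatrix'_apply, hΛ]
        simp [Pi.single_apply]
      rw [h2]
      exact analyticAt_const.sub ((Λ.analyticAt _).comp hI)
    simp only [Matrix.det_apply]
    refine Finset.analyticAt_fun_sum _ fun σ _ => ?_
    refine AnalyticAt.const_smul (Finset.analyticAt_fun_prod _ fun i _ => h1 _ _)
  · filter_upwards [hev] with p hp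
    have h3 : Q p * Ring.inverse (Q p) = 1 := Ring.mul_inverse_cancel _ hp
    have h4 : (1 : V →L[ℂ] V) - T p = Q p * (1 - ((Ring.inverse (Q p)).comp u).comp v) := by
      rw [mul_sub, mul_one]
      have h5 : Q p * ((Ring.inverse (Q p)).comp u).comp v = u.comp v := by
        ext x
        have := congrArg (fun f : V →L[ℂ] V => f (u (v x))) h3
        simpa using this
      rw [h5]
      show (1 : V →L[ℂ] V) - T p = 1 - (T p - u.comp v) - u.comp v
      abel
    have h6 : IsUnit ((1 : V →L[ℂ] V) - T p) ↔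
        IsUnit (1 - ((Ring.inverse (Q p)).comp u).comp v) := by
      rw [h4]
      constructor
      · intro h
        exact (hp.unit.isUnit_units_mul _).1 h
      · intro h
        exact hp.mul h
    rw [h6]
    have h7 : IsUnit (1 - ((Ring.inverse (Q p)).comp u).comp v) ↔
        IsUnit (1 - v.comp ((Ring.inverse (Q p)).comp u)) :=
      ⟨isUnit_swap _ _, isUnit_swap _ _⟩
    rw [h7]
    have h8 : IsUnit (M p) ↔ (M p).det ≠ 0 := by
      rw [Matrix.isUnit_iff_isUnit_det, isUnit_iff_ne_zero]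
    rw [← h8]
    set f := (1 - v.comp ((Ring.inverse (Q p)).comp u) : (Fin r → ℂ) →L[ℂ] (Fin r → ℂ)) with hf
    have h9 : IsUnit (M p) ↔ IsUnit (f : (Fin r → ℂ) →ₗ[ℂ] (Fin r → ℂ)) := by
      show IsUnit (LinearMap.toMatrixAlgEquiv' (f : (Fin r → ℂ) →ₗ[ℂ] (Fin r → ℂ))) ↔ _
      exact MulEquiv.isUnit_map (LinearMap.toMatrixAlgEquiv' (R := ℂ) (n := Fin r))
    rw [h9]
    have h10 : (Module.End.toContinuousLinearMap (Fin r → ℂ)
        (f : (Fin r → ℂ) →ₗ[ℂ] (Fin r → ℂ))) = f := by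
      ext x
      rfl
    conv_lhs => rw [← h10]
    exact MulEquiv.isUnit_map (Module.End.toContinuousLinearMap (𝕜 := ℂ) (Fin r → ℂ))

end Pool.Agent.U375.LC
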